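import Pool.Agent.Run7.h110.RG.Fin

set_option autoImplicit false
set_option linter.unusedSectionVars false

/-!
# Gaps in the numbers of common neighbours, and gap quantifiers

`T(G)` is the set of nonempty cliques of `G` ordered by inclusion.

**Critical sets.** A set `X` of vertices is critical if no set `Y` which induces a graph isomorphic
to the one induced by `X` has exactly one common neighbour less than `X`. Let `v` be a vertex such
that for every neighbour `a` and every nonneighbour `b ≠ v` of `v` with `deg a = deg b + 1`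
* some critical set of neighbours of `v` contains `a`, or
* some set of nonneighbours of `v` which is critical in the complement of `G` contains `b`.
Then `T(G)` and `T` of the complement of `G` are reconstructible. For sets with one element this is
the classical method of the gaps in the degree sequence. Examples: the numbers of the elements of
`T(G)` which cover an element of height `r - 1` (a clique with `r` vertices) never differ by one,
and for some vertex `v` all edges at `v` are contained in cliques with `r + 1` vertices; every edge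
of `G` lies in the same number `λ ≥ 1` of triangles; any two nonadjacent vertices have the same
number of common neighbours, and no neighbour of `v` is adjacent to all the other ones.

**Gap quantifiers.** A visible relation is a relation of injective tuples of vertices which is
obtained from adjacency by Boolean operations, changes of variables and the following rule: if `P`
and `R` are visible relations of `k` and `k + 1` variables and no tuple `x` with `P x` has exactly
`e` witnesses `z`, `R (x, z)`, then `P x` and the existence of more than `e` witnesses is a visible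
relation. Here either `2 n ^ k < 2 ^ (n - k)`, `n` the number of vertices, or `R` contains the
condition that `z` is adjacent (or nonadjacent) to all entries of `x`. Criticality can be considered
with respect to arbitrary visible relations.
-/

namespace Pool.Agent.Results.MP_552896_co.GapsOfCommonNeighbours

open Finset

/-- The truncated clique lattices of `G` and `H` have the same deck of maximal filter deleted
subsets: some bijection `f` of the vertex sets is such that, for every vertex `v`, the nonempty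
cliques of `G` avoiding `v` and the nonempty cliques of `H` avoiding `f v`, both ordered by
inclusion, are isomorphic ordered sets. -/
def SameDeck {V W : Type} (G : SimpleGraph V) (H : SimpleGraph W) : Prop :=
  ∃ f : V ≃ W, ∀ v : V,
    Nonempty ({s : Finset V // s.Nonempty ∧ G.IsClique (s : Set V) ∧ v ∉ s} ≃o
      {t : Finset W // t.Nonempty ∧ H.IsClique (t : Set W) ∧ f v ∉ t})

/-- `T(G)` is reconstructible from its deck: every truncated clique lattice `T(H)` of a finite
graph `H` with the same deck is isomorphic to `T(G)`. -/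
def Reconstructible {V : Type} (G : SimpleGraph V) : Prop :=
  ∀ (W : Type) [Fintype W] (H : SimpleGraph W), SameDeck G H →
    Nonempty ({s : Finset V // s.Nonempty ∧ G.IsClique (s : Set V)} ≃o
      {t : Finset W // t.Nonempty ∧ H.IsClique (t : Set W)})

open Classical in
/-- The degree of `x` in `G`. -/
noncomputable def deg {V : Type} [Fintype V] (G : SimpleGraph V) (x : V) : ℕ :=
  (univ.filter (fun y => G.Adj x y)).card

open Classical in
/-- The number of the common neighbours of the vertices in `X`. -/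
noncomputable def common {V : Type} [Fintype V] (G : SimpleGraph V) (X : Finset V) : ℕ :=
  (univ.filter (fun z => ∀ x ∈ X, G.Adj x z)).card

open Classical in
/-- `X` is critical: no set `f(X)`, where `f` is injective on `X` and preserves adjacency and
nonadjacency of the vertices in `X`, has exactly one common neighbour less than `X`. -/
def Critical {V : Type} [Fintype V] (G : SimpleGraph V) (X : Finset V) : Prop :=
  ∀ f : V → V, Set.InjOn f (X : Set V) → (∀ x ∈ X, ∀ y ∈ X, (G.Adj (f x) (f y) ↔ G.Adj x y)) →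
    common G (X.image f) + 1 ≠ common G X

open Classical in
/-- The number of the witnesses `z` outside the tuple `x` with `R (x, z)`. -/
noncomputable def witnesses {V : Type} [Fintype V] {k : ℕ} (R : (Fin (k + 1) → V) → Prop)
    (x : Fin k → V) : ℕ :=
  (univ.filter fun z => (∀ i, x i ≠ z) ∧ R (Fin.snoc x z)).card

/-- `e` is a gap: no injective tuple `x` with `P x` has exactly `e` witnesses. -/
def IsGap {V : Type} [Fintype V] {k : ℕ} (P : (Fin k → V) → Prop) (R : (Fin (k + 1) → V) → Prop)
    (e : ℕ) : Prop :=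
  ∀ x : Fin k → V, Function.Injective x → P x → witnesses R x ≠ e

/-- The last entry is adjacent to all the other ones. -/
def Join {V : Type} (K : SimpleGraph V) (k : ℕ) (y : Fin (k + 1) → V) : Prop :=
  ∀ i : Fin k, K.Adj (y i.castSucc) (y (Fin.last k))

/-- The visible relations: obtained from adjacency by Boolean operations, changes of variables, and
at gaps, from the quantifier: there are more than `e` witnesses. -/
inductive Visible {V : Type} [Fintype V] (G : SimpleGraph V) :
    (k : ℕ) → ((Fin k → V) → Prop) → Prop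
  | adj (k : ℕ) (i j : Fin k) : Visible G k (fun x => G.Adj (x i) (x j))
  | not (k : ℕ) (P : (Fin k → V) → Prop) (hP : Visible G k P) : Visible G k (fun x => ¬ P x)
  | and (k : ℕ) (P Q : (Fin k → V) → Prop) (hP : Visible G k P) (hQ : Visible G k Q) :
      Visible G k (fun x => P x ∧ Q x)
  | sub (k l : ℕ) (f : Fin l → Fin k) (hf : Function.Injective f) (P : (Fin l → V) → Prop)
      (hP : Visible G l P) : Visible G k (fun x => P (x ∘ f))
  | gap (k e : ℕ) (P : (Fin k → V) → Prop) (R : (Fin (k + 1) → V) → Prop) (hP : Visible G k P)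
      (hR : Visible G (k + 1) R) (hs : 2 * Fintype.card V ^ k < 2 ^ (Fintype.card V - k))
      (hg : IsGap P R e) : Visible G k (fun x => P x ∧ e < witnesses R x)
  | join (k e : ℕ) (hk : 0 < k) (K : SimpleGraph V) (hK : K = G ∨ K = Gᶜ)
      (P : (Fin k → V) → Prop) (R : (Fin (k + 1) → V) → Prop) (hP : Visible G k P)
      (hR : Visible G (k + 1) R) (hg : IsGap P (fun y => R y ∧ Join K k y) e) :
      Visible G k (fun x => P x ∧ e < witnesses (fun y => R y ∧ Join K k y) x)

/-- `a` is recognised as a neighbour of `v`: it is the entry `x i` of a tuple `x` with a visible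
relation `P` such that `v` is a witness for `x`, where the witnesses `z` have a visible relation
`R (x, z)` and are adjacent to `x i` (to all entries, if `2 n ^ k < 2 ^ (n - k)` is not true), and
no tuple with `P` has exactly one witness less. -/
def Recognised {V : Type} [Fintype V] (G : SimpleGraph V) (v a : V) : Prop :=
  ∃ (k : ℕ) (P : (Fin k → V) → Prop) (R : (Fin (k + 1) → V) → Prop) (x : Fin k → V) (i : Fin k),
    Visible G k P ∧ Visible G (k + 1) R ∧ Function.Injective x ∧ (∀ j, x j ≠ v) ∧ x i = a ∧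
    P x ∧ R (Fin.snoc x v) ∧
    ((2 * Fintype.card V ^ k < 2 ^ (Fintype.card V - k) ∧
        ∀ y : Fin k → V, Function.Injective y → P y →
          witnesses (fun w => R w ∧ G.Adj (w i.castSucc) (w (Fin.last k))) y + 1 ≠
            witnesses (fun w => R w ∧ G.Adj (w i.castSucc) (w (Fin.last k))) x) ∨
      ((∀ j, G.Adj (x j) v) ∧
        ∀ y : Fin k → V, Function.Injective y → P y →
          witnesses (fun w => R w ∧ Join G k w) y + 1 ≠ witnesses (fun w => R w ∧ Join G k w) x))

section proofs

open Classical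
open Pool.Agent.H234RC (Hypo NonIso)
open Pool.Agent.Run7.h110.RG

variable {V : Type} [Fintype V] {G H : SimpleGraph V} {π : V → Equiv.Perm V}

theorem wit_eq {k : ℕ} (R : (Fin (k + 1) → V) → Prop) (x : Fin k → V) :
    wit (fun x z => R (Fin.snoc x z)) x = witnesses R x := rfl

theorem wit_pos {k : ℕ} (R : (Fin (k + 1) → V) → Prop) (x : Fin k → V) (v : V)
    (hv : ∀ j, x j ≠ v) (h : R (Fin.snoc x v)) : 0 < witnesses R x :=
  card_pos.mpr ⟨v, mem_filter.mpr ⟨mem_univ _, hv, h⟩⟩

theorem tr2_of {k : ℕ} {R R' : (Fin (k + 1) → V) → Prop} (h : Tr π R R') :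
    Tr2 π (fun x z => R (Fin.snoc x z)) (fun x z => R' (Fin.snoc x z)) := by
  intro v x hx hv z hz hxz
  have h1 := h v (Fin.snoc x z) (Fin.snoc_injective_of_injective hx (by
    rintro ⟨i, hi⟩
    exact hxz i hi)) (by
    intro i
    refine Fin.lastCases ?_ (fun j => ?_) i
    · rw [Fin.snoc_last]; exact hz
    · rw [Fin.snoc_castSucc]; exact hv j)
  rw [Fin.comp_snoc] at h1
  exact h1

theorem tr_join (hH : Hypo G H π) {K K' : SimpleGraph V}
    (hK : (K = G ∧ K' = H) ∨ (K = Gᶜ ∧ K' = Hᶜ)) (k : ℕ) : Tr π (Join K k) (Join K' k) := by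
  intro v y _ hv
  exact forall_congr' fun i => adj_tr hH hK v _ _ (hv _) (hv _)

theorem tr_and {k : ℕ} {P P' Q Q' : (Fin k → V) → Prop} (h : Tr π P P') (h' : Tr π Q Q') :
    Tr π (fun x => P x ∧ Q x) (fun x => P' x ∧ Q' x) := by
  intro v x hx hv
  exact and_congr (h v x hx hv) (h' v x hx hv)

theorem tr_visible (hV : 3 ≤ Fintype.card V) (hH : Hypo G H π) (hN : NonIso G H) {k : ℕ}
    {P : (Fin k → V) → Prop} (h : Visible G k P) : ∃ P' : (Fin k → V) → Prop, Tr π P P' := by
  induction h with
  | adj k i j =>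
    exact ⟨fun x => H.Adj (x i) (x j), fun v x _ hv => hH.adj v _ _ (hv i) (hv j)⟩
  | not k P _ ih =>
    obtain ⟨P', h⟩ := ih
    exact ⟨fun x => ¬ P' x, fun v x hx hv => not_congr (h v x hx hv)⟩
  | and k P Q _ _ ih ih' =>
    obtain ⟨P', h⟩ := ih
    obtain ⟨Q', h'⟩ := ih'
    exact ⟨_, tr_and h h'⟩
  | sub k l f hf P _ ih =>
    obtain ⟨P', h⟩ := ih
    exact ⟨fun x => P' (x ∘ f), fun v x hx hv => h v (x ∘ f) (hx.comp hf) (fun i => hv (f i))⟩
  | gap k e P R _ _ hs hg ih ih' =>
    obtain ⟨P', h⟩ := ih
    obtain ⟨R', h'⟩ := ih'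
    exact ⟨_, tr_gap hH.fix h (tr2_of h') (Or.inl hs) hg⟩
  | join k e hk K hK P R _ _ hg ih ih' =>
    obtain ⟨P', h⟩ := ih
    obtain ⟨R', h'⟩ := ih'
    obtain ⟨K', hK'⟩ : ∃ K', (K = G ∧ K' = H) ∨ (K = Gᶜ ∧ K' = Hᶜ) := by
      rcases hK with h | h
      · exact ⟨H, Or.inl ⟨h, rfl⟩⟩
      · exact ⟨Hᶜ, Or.inr ⟨h, rfl⟩⟩
    have h2 := tr2_of (tr_and h' (tr_join hH hK' k))
    refine ⟨fun x => P' x ∧ e < wit (fun x z => R' (Fin.snoc x z) ∧ Join K' k (Fin.snoc x z)) x,
      fun v x hx hv => ?_⟩
    have hB : Bd P P' (fun x z => R (Fin.snoc x z) ∧ Join K k (Fin.snoc x z))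
        (fun x z => R' (Fin.snoc x z) ∧ Join K' k (Fin.snoc x z)) := by
      refine bd_join hV hH hN hK' hk (lt_card x hx v hv) (fun x z hz i => ?_) (fun x z hz i => ?_)
      · have := hz.2 i
        rwa [Fin.snoc_castSucc, Fin.snoc_last] at this
      · have := hz.2 i
        rwa [Fin.snoc_castSucc, Fin.snoc_last] at this
    exact tr_gap hH.fix h h2 hB hg v x hx hv

theorem recognised_adj (hV : 3 ≤ Fintype.card V) (hH : Hypo G H π) (hN : NonIso G H) {v a : V}
    (ha : G.Adj v a) (h : Recognised G v a) : H.Adj (π v a) v := by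
  obtain ⟨k, P, R, x, i, hP, hR, hx, hv, rfl, hPx, hRx, h⟩ := h
  obtain ⟨P', hP'⟩ := tr_visible hV hH hN hP
  obtain ⟨R', hR'⟩ := tr_visible hV hH hN hR
  rcases h with ⟨hs, hg⟩ | ⟨hj, hg⟩
  · have h2 : Tr π (fun w => R w ∧ G.Adj (w i.castSucc) (w (Fin.last k)))
        (fun w => R' w ∧ H.Adj (w i.castSucc) (w (Fin.last k))) :=
      tr_and hR' (fun v y _ hv => hH.adj v _ _ (hv _) (hv _))
    have hw : 0 < witnesses (fun w => R w ∧ G.Adj (w i.castSucc) (w (Fin.last k))) x := by
      refine wit_pos _ x v hv ⟨hRx, ?_⟩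
      rw [Fin.snoc_castSucc, Fin.snoc_last]
      exact ha.symm
    obtain ⟨e, he⟩ := Nat.exists_eq_succ_of_ne_zero hw.ne'
    have h3 := pin hH.fix hP' (tr2_of h2) (Or.inl hs) (e := e) (fun y hy hPy hwy => hg y hy hPy (by
      rw [he, ← wit_eq, hwy])) v x hx hv hPx he ⟨hRx, by
        rw [Fin.snoc_castSucc, Fin.snoc_last]; exact ha.symm⟩
    have h4 := h3.2
    rwa [Fin.snoc_castSucc, Fin.snoc_last] at h4
  · have hK : (G = G ∧ H = H) ∨ (G = Gᶜ ∧ H = Hᶜ) := Or.inl ⟨rfl, rfl⟩
    have h2 := tr2_of (tr_and hR' (tr_join hH hK k))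
    have hjv : Join G k (Fin.snoc x v) := by
      intro j
      rw [Fin.snoc_castSucc, Fin.snoc_last]
      exact hj j
    have hw : 0 < witnesses (fun w => R w ∧ Join G k w) x := wit_pos _ x v hv ⟨hRx, hjv⟩
    obtain ⟨e, he⟩ := Nat.exists_eq_succ_of_ne_zero hw.ne'
    have hB : Bd P P' (fun x z => R (Fin.snoc x z) ∧ Join G k (Fin.snoc x z))
        (fun x z => R' (Fin.snoc x z) ∧ Join H k (Fin.snoc x z)) := by
      refine bd_join hV hH hN hK (Fin.pos i) (lt_card x hx v hv) (fun x z hz i => ?_)
        (fun x z hz i => ?_)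
      · have := hz.2 i
        rwa [Fin.snoc_castSucc, Fin.snoc_last] at this
      · have := hz.2 i
        rwa [Fin.snoc_castSucc, Fin.snoc_last] at this
    have h3 := pin hH.fix hP' h2 hB (e := e) (fun y hy hPy hwy => hg y hy hPy (by
      rw [he, ← wit_eq, hwy])) v x hx hv hPx he ⟨hRx, hjv⟩
    have h4 := h3.2 i
    rwa [Fin.snoc_castSucc, Fin.snoc_last] at h4

theorem critical_adj (hV : 3 ≤ Fintype.card V) (hH : Hypo G H π) (hN : NonIso G H) {v a : V}
    (X : Finset V) (ha : a ∈ X) (hX : ∀ x ∈ X, G.Adj v x) (hc : Critical G X) :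
    H.Adj (π v a) v := by
  set k := X.card with hk
  let x : Fin k → V := fun i => (X.equivFin.symm i : V)
  have hxX : ∀ i, x i ∈ X := fun i => (X.equivFin.symm i).2
  have hx : Function.Injective x := fun i j h => X.equivFin.symm.injective (Subtype.ext h)
  have hsurj : ∀ y (hy : y ∈ X), x (X.equivFin ⟨y, hy⟩) = y := by
    intro y hy
    show ((X.equivFin.symm (X.equivFin ⟨y, hy⟩) : X) : V) = y
    rw [Equiv.symm_apply_apply]
  have hv : ∀ i, x i ≠ v := fun i h => (hX _ (hxX i)).ne h.symm
  have hwit : ∀ (y : Fin k → V) (Y : Finset V), (∀ z, z ∈ Y ↔ ∃ i, y i = z) →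
      wit (fun x z => ∀ i, G.Adj (x i) z) y = common G Y := by
    intro y Y hY
    unfold wit common
    congr 1
    ext z
    simp only [mem_filter, mem_univ, true_and]
    constructor
    · rintro ⟨_, h⟩ w hw
      obtain ⟨i, rfl⟩ := (hY w).mp hw
      exact h i
    · intro h
      exact ⟨fun i hi => (h (y i) ((hY _).mpr ⟨i, rfl⟩)).ne hi, fun i => h _ ((hY _).mpr ⟨i, rfl⟩)⟩
  have hwx : wit (fun x z => ∀ i, G.Adj (x i) z) x = common G X := by
    apply hwit
    intro z
    constructor
    · intro hz
      exact ⟨_, hsurj z hz⟩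
    · rintro ⟨i, rfl⟩
      exact hxX i
  have hpos : 0 < common G X :=
    card_pos.mpr ⟨v, mem_filter.mpr ⟨mem_univ _, fun y hy => (hX y hy).symm⟩⟩
  obtain ⟨e, he⟩ := Nat.exists_eq_succ_of_ne_zero hpos.ne'
  have hk0 : 0 < k := card_pos.mpr ⟨a, ha⟩
  have hP : Tr π (fun y : Fin k → V => ∀ i j, (G.Adj (y i) (y j) ↔ G.Adj (x i) (x j)))
      (fun y : Fin k → V => ∀ i j, (H.Adj (y i) (y j) ↔ G.Adj (x i) (x j))) := by
    intro v y _ hv
    refine forall_congr' fun i => forall_congr' fun j => ?_
    rw [Function.comp_apply, Function.comp_apply, hH.adj v _ _ (hv i) (hv j)]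
  have hR : Tr2 π (fun (y : Fin k → V) z => ∀ i, G.Adj (y i) z)
      (fun (y : Fin k → V) z => ∀ i, H.Adj (y i) z) := by
    intro v y _ hv z hz _
    refine forall_congr' fun i => ?_
    rw [Function.comp_apply, hH.adj v _ _ (hv i) hz]
  have hg : Gap (fun y : Fin k → V => ∀ i j, (G.Adj (y i) (y j) ↔ G.Adj (x i) (x j)))
      (fun (y : Fin k → V) z => ∀ i, G.Adj (y i) z) e := by
    intro y hy hPy hwy
    let f : V → V := fun z => if h : z ∈ X then y (X.equivFin ⟨z, h⟩) else z
    have hf : ∀ z (h : z ∈ X), f z = y (X.equivFin ⟨z, h⟩) := fun z h => by simp [f, h]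
    apply hc f
    · intro z hz w hw hzw
      rw [mem_coe] at hz hw
      rw [hf z hz, hf w hw] at hzw
      have := X.equivFin.injective (hy hzw)
      exact congrArg Subtype.val this
    · intro z hz w hw
      rw [hf z hz, hf w hw, hPy, hsurj z hz, hsurj w hw]
    · rw [he, ← hwit y (X.image f) ?_, hwy]
      intro z
      rw [mem_image]
      constructor
      · rintro ⟨w, hw, rfl⟩
        exact ⟨_, (hf w hw).symm⟩
      · rintro ⟨i, rfl⟩
        refine ⟨x i, hxX i, ?_⟩
        rw [hf _ (hxX i)]
        congr 1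
        exact X.equivFin.apply_symm_apply i
  have hB := bd_join (P := fun y : Fin k → V => ∀ i j, (G.Adj (y i) (y j) ↔ G.Adj (x i) (x j)))
    (P' := fun y : Fin k → V => ∀ i j, (H.Adj (y i) (y j) ↔ G.Adj (x i) (x j)))
    (R := fun (y : Fin k → V) z => ∀ i, G.Adj (y i) z)
    (R' := fun (y : Fin k → V) z => ∀ i, H.Adj (y i) z) hV hH hN (K := G) (K' := H)
    (Or.inl ⟨rfl, rfl⟩) hk0 (lt_card x hx v hv) (fun _ _ h => h) (fun _ _ h => h)
  have h3 := pin hH.fix hP hR hB hg v x hx hv (fun i j => Iff.rfl) (by rw [hwx, he])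
    (fun i => (hX _ (hxX i)).symm)
  have h4 := h3 (X.equivFin ⟨a, ha⟩)
  rw [Function.comp_apply, hsurj a ha] at h4
  exact h4

theorem hypo_compl (hH : Hypo G H π) : Hypo Gᶜ Hᶜ π where
  fix := hH.fix
  adj := fun v x y hx hy => adj_tr hH (Or.inr ⟨rfl, rfl⟩) v x y hx hy

theorem nonIso_compl (hN : NonIso G H) : NonIso Gᶜ Hᶜ := by
  rintro ⟨σ, hσ⟩
  apply hN
  refine ⟨σ, fun x y => ?_⟩
  by_cases hxy : x = y
  · rw [hxy]
    exact ⟨fun h => absurd h H.irrefl, fun h => absurd h G.irrefl⟩
  · have := hσ x y
    rw [SimpleGraph.compl_adj, SimpleGraph.compl_adj, σ.injective.ne_iff] at this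
    tauto

/-- the common form of the two theorems -/
theorem main_form (G : SimpleGraph V) (hV : 3 ≤ Fintype.card V) (v : V)
    (h : ∀ a b : V, G.Adj v a → b ≠ v → ¬ G.Adj v b → deg G a = deg G b + 1 →
      (Recognised G v a ∨ ∃ X : Finset V, a ∈ X ∧ (∀ x ∈ X, G.Adj v x) ∧ Critical G X) ∨
      (Recognised Gᶜ v b ∨ ∃ X : Finset V, b ∈ X ∧ (∀ x ∈ X, Gᶜ.Adj v x) ∧ Critical Gᶜ X)) :
    Reconstructible G ∧ Reconstructible Gᶜ := by
  refine Pool.Agent.TH87.RVE.rec_of G _ (fun H π hH hN h => ?_) h
  refine assemble hV hH v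
    (fun a => Recognised G v a ∨ ∃ X : Finset V, a ∈ X ∧ (∀ x ∈ X, G.Adj v x) ∧ Critical G X)
    (fun b => Recognised Gᶜ v b ∨ ∃ X : Finset V, b ∈ X ∧ (∀ x ∈ X, Gᶜ.Adj v x) ∧ Critical Gᶜ X)
    ?_ ?_ ?_ hN
  · rintro a ha (h | ⟨X, h1, h2, h3⟩)
    · exact recognised_adj hV hH hN ha h
    · exact critical_adj hV hH hN X h1 h2 h3
  · rintro b hb hb' (h | ⟨X, h1, h2, h3⟩)
    · have hb2 : Gᶜ.Adj v b := (G.compl_adj _ _).mpr ⟨hb.symm, hb'⟩
      have := recognised_adj hV (hypo_compl hH) (nonIso_compl hN) hb2 h
      exact ((H.compl_adj _ _).mp this).2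
    · have := critical_adj hV (hypo_compl hH) (nonIso_compl hN) X h1 h2 h3
      exact ((H.compl_adj _ _).mp this).2
  · intro a b ha hb hb'
    by_cases hd : deg G a = deg G b + 1
    · rcases h a b ha hb hb' hd with h | h
      · exact Or.inl h
      · exact Or.inr (Or.inl h)
    · exact Or.inr (Or.inr hd)

end proofs

/-- **Theorem.** `G` is a graph with at least three vertices and `v` a vertex. `T(G)` and `T` of the
complement of `G` are reconstructible in each of the following cases.
(1) For every neighbour `a` and nonneighbour `b ≠ v` of `v` with `deg a = deg b + 1`, `a` is in a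
critical set of neighbours of `v` or recognised as a neighbour of `v`, or this is true for `b` in the
complement of `G`.
(2) The numbers of the elements of `T(G)` covering a clique with `r` vertices (that is, the numbers
of the common neighbours) never differ by one, and every neighbour of `v` is in a clique with `r`
vertices consisting of neighbours of `v`.
(3) Every edge of `G` lies in exactly `l` triangles, `l ≥ 1`.
(4) The numbers of the common neighbours of two nonadjacent vertices never differ by one, and no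
neighbour of `v` is adjacent to all other neighbours of `v`. -/
theorem result {V : Type} [Fintype V] (G : SimpleGraph V) (hV : 3 ≤ Fintype.card V) (v : V) :
    ((∀ a b : V, G.Adj v a → b ≠ v → ¬ G.Adj v b → deg G a = deg G b + 1 →
        (Recognised G v a ∨ ∃ X : Finset V, a ∈ X ∧ (∀ x ∈ X, G.Adj v x) ∧ Critical G X) ∨
        (Recognised Gᶜ v b ∨ ∃ X : Finset V, b ∈ X ∧ (∀ x ∈ X, Gᶜ.Adj v x) ∧ Critical Gᶜ X)) →
      Reconstructible G ∧ Reconstructible Gᶜ) ∧
    (∀ r : ℕ, (∀ X Y : Finset V, X.card = r → G.IsClique (X : Set V) → Y.card = r →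
        G.IsClique (Y : Set V) → common G X ≠ common G Y + 1) →
      (∀ a : V, G.Adj v a → ∃ X : Finset V, a ∈ X ∧ X.card = r ∧ G.IsClique (X : Set V) ∧
        ∀ x ∈ X, G.Adj v x) →
      Reconstructible G ∧ Reconstructible Gᶜ) ∧
    (∀ l : ℕ, 1 ≤ l → (∀ x y : V, G.Adj x y → {z | G.Adj x z ∧ G.Adj y z}.ncard = l) →
      Reconstructible G ∧ Reconstructible Gᶜ) ∧
    ((∀ x y x' y' : V, x ≠ y → ¬ G.Adj x y → x' ≠ y' → ¬ G.Adj x' y' →
        {z | G.Adj x z ∧ G.Adj y z}.ncard ≠ {z | G.Adj x' z ∧ G.Adj y' z}.ncard + 1) →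
      (∀ a : V, G.Adj v a → ∃ b : V, G.Adj v b ∧ b ≠ a ∧ ¬ G.Adj a b) →
      Reconstructible G ∧ Reconstructible Gᶜ) := by
  classical
  have two : ∀ x y : V, common G {x, y} = {z | G.Adj x z ∧ G.Adj y z}.ncard := by
    intro x y
    unfold common
    rw [← Set.ncard_coe_finset]
    congr 1
    ext z
    simp
  have cl : ∀ r : ℕ, (∀ X Y : Finset V, X.card = r → G.IsClique (X : Set V) → Y.card = r →
        G.IsClique (Y : Set V) → common G X ≠ common G Y + 1) →
      (∀ a : V, G.Adj v a → ∃ X : Finset V, a ∈ X ∧ X.card = r ∧ G.IsClique (X : Set V) ∧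
        ∀ x ∈ X, G.Adj v x) →
      Reconstructible G ∧ Reconstructible Gᶜ := by
    intro r h1 h2
    refine main_form G hV v (fun a b ha _ _ _ => Or.inl (Or.inr ?_))
    obtain ⟨X, hX1, hX2, hX3, hX4⟩ := h2 a ha
    refine ⟨X, hX1, hX4, fun f hf hadj heq => ?_⟩
    refine h1 X (X.image f) hX2 hX3 ?_ ?_ heq.symm
    · rw [card_image_of_injOn hf, hX2]
    · intro y hy z hz hyz
      rw [mem_coe, mem_image] at hy hz
      obtain ⟨y, hy, rfl⟩ := hy
      obtain ⟨z, hz, rfl⟩ := hz
      rw [hadj y hy z hz]
      exact hX3 hy hz (fun h => hyz (by rw [h]))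
  refine ⟨main_form G hV v, cl, fun l hl h => ?_, fun h1 h2 => ?_⟩
  · have pair : ∀ X : Finset V, X.card = 2 → G.IsClique (X : Set V) → common G X = l := by
      intro X hX hc
      obtain ⟨x, y, hxy, rfl⟩ := card_eq_two.mp hX
      rw [two]
      exact h x y (hc (by simp) (by simp) hxy)
    refine cl 2 (fun X Y h1 h2 h3 h4 => ?_) (fun a ha => ?_)
    · rw [pair X h1 h2, pair Y h3 h4]
      omega
    · have h1 := h v a ha
      have h2 : {z | G.Adj v z ∧ G.Adj a z}.Nonempty := by
        apply Set.nonempty_of_ncard_ne_zero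
        omega
      obtain ⟨b, hb1, hb2⟩ := h2
      refine ⟨{a, b}, by simp, card_pair hb2.ne, ?_, ?_⟩
      · intro y hy z hz hyz
        simp only [coe_insert, coe_singleton, Set.mem_insert_iff, Set.mem_singleton_iff] at hy hz
        rcases hy with rfl | rfl <;> rcases hz with rfl | rfl
        · exact absurd rfl hyz
        · exact hb2
        · exact hb2.symm
        · exact absurd rfl hyz
      · intro x hx
        rw [mem_insert, mem_singleton] at hx
        rcases hx with rfl | rfl
        · exact ha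
        · exact hb1
  · refine main_form G hV v (fun a b ha _ _ _ => Or.inl (Or.inr ?_))
    obtain ⟨c, hc1, hc2, hc3⟩ := h2 a ha
    refine ⟨{a, c}, by simp, ?_, fun f hf hadj heq => ?_⟩
    · intro x hx
      rw [mem_insert, mem_singleton] at hx
      rcases hx with rfl | rfl
      · exact ha
      · exact hc1
    · rw [image_insert, image_singleton, two, two] at heq
      refine h1 a c (f a) (f c) hc2.symm hc3 ?_ ?_ heq.symm
      · intro h
        exact hc2.symm (hf (by simp) (by simp) h)
      · rw [hadj a (by simp) c (by simp)]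
        exact hc3

end Pool.Agent.Results.MP_552896_co.GapsOfCommonNeighbours
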